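import Pool.Agent.D0H65.UB.TwsA

/-!
# Project UB (helper91), module TWS (helper65): the dyadic sum
-/

set_option autoImplicit false

namespace Pool.Agent.D0H65.UB

open Finset Filter
open Pool.Agent.H469R2.NK (e norm_e e_add conj_e norm_sum_neg Cq Cq_pos)
open Pool.Agent.H376R2.MR (er)

theorem grow (k : ℕ) (c ε : ℝ) (hε : 0 < ε) :
    ∀ᶠ N : ℕ in atTop, c * Real.log N ^ k ≤ (N : ℝ) ^ ε := by
  have h := (isLittleO_log_rpow_rpow_atTop (k : ℝ) hε).bound
    (show (0 : ℝ) < 1 / (|c| + 1) by positivity)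
  have h2 := tendsto_natCast_atTop_atTop.eventually h
  filter_upwards [h2, eventually_ge_atTop 1] with N hN h1
  have hN1 : (1 : ℝ) ≤ N := by exact_mod_cast h1
  have hlog : 0 ≤ Real.log N := Real.log_nonneg hN1
  have hp : 0 ≤ (N : ℝ) ^ ε := by positivity
  rw [Real.rpow_natCast, Real.norm_of_nonneg (pow_nonneg hlog k), Real.norm_of_nonneg hp] at hN
  have hl : 0 ≤ Real.log N ^ k := pow_nonneg hlog k
  have hc : 0 < |c| + 1 := by positivity
  have h3 : (|c| + 1) * Real.log N ^ k ≤ (N : ℝ) ^ ε := by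
    rw [one_div, inv_mul_eq_div, le_div_iff₀ hc] at hN
    linarith
  have h4 : c * Real.log N ^ k ≤ (|c| + 1) * Real.log N ^ k :=
    mul_le_mul_of_nonneg_right (by linarith [le_abs_self c]) hl
  linarith

theorem TW_abs (φ Z u : ℝ) (L : ℕ) : ∃ φ' : ℝ, ‖TW φ Z u L‖ = ‖TW φ' |Z| u L‖ := by
  rcases le_or_gt 0 Z with h | h
  · exact ⟨φ, by rw [abs_of_nonneg h]⟩
  · refine ⟨-φ, ?_⟩
    rw [abs_of_neg h]
    unfold TW
    rw [← norm_sum_neg]
    congr 1
    refine sum_congr rfl fun n _ => ?_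
    congr 1; ring

theorem block (K A : ℕ) : ∃ B : ℕ, ∀ᶠ N : ℕ in atTop, 16 ≤ (N : ℝ) / (2 * Real.log N ^ (A + 1)) ∧
    2 ≤ Real.log N ∧ ∀ φ t : ℝ, Real.log N ^ B ≤ |t| → |t| ≤ (N : ℝ) ^ K →
    ∀ (M L : ℕ) (u : ℝ), (N : ℝ) / (2 * Real.log N ^ (A + 1)) ≤ M → M ≤ N → (M : ℝ) ≤ u → L ≤ M →
      u + L ≤ 3 * M → ‖TW φ (t / (2 * Real.pi)) u L‖ ≤ M / (4 * Real.log N ^ A) := by
  obtain ⟨η, hη0, hη1, C, hC, hbig⟩ := big_freq (2 * K + 1) (by omega)
  have hCq := Cq_pos 1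
  have hell : Tendsto (fun N : ℕ => Real.log (N : ℝ)) atTop atTop :=
    Real.tendsto_log_atTop.comp tendsto_natCast_atTop_atTop
  refine ⟨2 * A + 2, ?_⟩
  filter_upwards [hell.eventually_ge_atTop (2 + 32 * 288 * Cq 1),
    grow (A + 1) 2 (1 / 2) (by norm_num), grow 0 16 (1 / 2) (by norm_num),
    grow (2 * A) (32 * Cq 1) (1 / 2) (by norm_num), grow A (4 * C) (η / 2) (by positivity),
    eventually_ge_atTop 2] with N ha hb hc hd he hN2
  have hNR : (2 : ℝ) ≤ N := by exact_mod_cast hN2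
  have hN0 : (0 : ℝ) < N := by linarith
  have hN1 : (1 : ℝ) ≤ N := by linarith
  obtain ⟨ℓ, hℓ⟩ : ∃ ℓ, ℓ = Real.log N := ⟨_, rfl⟩
  rw [← hℓ] at ha hb hc hd he ⊢
  have hℓ2 : 2 ≤ ℓ := by
    have : 0 ≤ 32 * 288 * Cq 1 := by positivity
    linarith
  have hℓ0 : 0 < ℓ := by linarith
  have hℓ3 : 32 * 288 * Cq 1 ≤ ℓ := by linarith
  rw [pow_zero, mul_one] at hc
  obtain ⟨r, hr⟩ : ∃ r, r = (N : ℝ) ^ (1 / 2 : ℝ) := ⟨_, rfl⟩
  have hr2 : r * r = N := by
    rw [hr, ← Real.rpow_add hN0]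
    norm_num
  rw [← hr] at hb hc hd
  have hr0 : 0 < r := by linarith
  have hrM : r ≤ (N : ℝ) / (2 * ℓ ^ (A + 1)) := by
    rw [le_div_iff₀ (by positivity), ← hr2]
    exact mul_le_mul_of_nonneg_left hb hr0.le
  refine ⟨hc.trans hrM, hℓ2, ?_⟩
  intro φ t ht1 ht2 M L u hM1 hM2 hu hL huL
  have hMr : r ≤ M := hrM.trans hM1
  have hM16 : (16 : ℝ) ≤ M := hc.trans hMr
  have hM16' : 16 ≤ M := by exact_mod_cast hM16
  have hM0 : (0 : ℝ) < M := by linarith
  have hM1' : (1 : ℝ) ≤ M := by linarith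
  have hMN : (M : ℝ) ≤ N := by exact_mod_cast hM2
  have hlogM : Real.log M ≤ ℓ := by rw [hℓ]; exact Real.log_le_log hM0 hMN
  obtain ⟨φ', hφ'⟩ := TW_abs φ (t / (2 * Real.pi)) u L
  rw [hφ']
  obtain ⟨Z, hZ⟩ : ∃ Z, Z = |t / (2 * Real.pi)| := ⟨_, rfl⟩
  rw [← hZ]
  have hpi := Real.pi_gt_three
  have hpi4 := Real.pi_le_four
  have hZ' : Z = |t| / (2 * Real.pi) := by
    rw [hZ, abs_div, abs_of_pos (by positivity : (0 : ℝ) < 2 * Real.pi)]
  have hZlow : ℓ ^ (2 * A + 2) / 8 ≤ Z := by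
    rw [hZ']
    apply div_le_div₀ (abs_nonneg t) ht1 (by positivity) (by linarith)
  have hZpos : 0 < Z := lt_of_lt_of_le (by positivity) hZlow
  have hZup : Z ≤ (M : ℝ) ^ (2 * K + 1) := by
    have h1 : Z ≤ |t| := by
      rw [hZ']
      exact div_le_self (abs_nonneg t) (by linarith)
    have h2 : (N : ℝ) ^ K ≤ ((M : ℝ) * M) ^ K := by
      apply pow_le_pow_left₀ hN0.le
      rw [← hr2]
      exact mul_le_mul hMr hMr hr0.le hM0.le
    have h3 : ((M : ℝ) * M) ^ K = (M : ℝ) ^ (2 * K) := by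
      rw [pow_mul, pow_two]
    have h4 : (M : ℝ) ^ (2 * K) ≤ (M : ℝ) ^ (2 * K + 1) := pow_le_pow_right₀ hM1' (by omega)
    calc Z ≤ |t| := h1
      _ ≤ (N : ℝ) ^ K := ht2
      _ ≤ _ := h2.trans (h3.le.trans h4)
  have hℓA : 0 < ℓ ^ A := by positivity
  rcases le_or_gt Z ((M : ℝ) ^ (3 / 4 : ℝ)) with hcase | hcase
  · have h := small_freq M L φ' u Z hM16' hu hL huL hZpos hcase
    have h1 : Cq 1 * (1 / M) ≤ 1 / (32 * ℓ ^ (2 * A)) := by
      rw [mul_one_div, div_le_div_iff₀ hM0 (by positivity)]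
      calc Cq 1 * (32 * ℓ ^ (2 * A)) = 32 * Cq 1 * ℓ ^ (2 * A) := by ring
        _ ≤ r := hd
        _ ≤ M := hMr
        _ = 1 * M := (one_mul _).symm
    have h2 : Cq 1 * (18 * (1 + Real.log M) / Z) ≤ 1 / (32 * ℓ ^ (2 * A)) := by
      have h3 : 18 * (1 + Real.log M) / Z ≤ 18 * (2 * ℓ) / (ℓ ^ (2 * A + 2) / 8) := by
        apply div_le_div₀ (by positivity) _ (by positivity) hZlow
        linarith
      have h4 : Cq 1 * (18 * (2 * ℓ) / (ℓ ^ (2 * A + 2) / 8)) = 288 * Cq 1 / (ℓ ^ (2 * A) * ℓ) := by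
        rw [pow_add]
        field_simp
        ring
      refine (mul_le_mul_of_nonneg_left h3 hCq.le).trans ?_
      rw [h4, div_le_div_iff₀ (by positivity) (by positivity)]
      have h5 : 0 < ℓ ^ (2 * A) := by positivity
      nlinarith
    have h6 : (‖TW φ' Z u L‖ / M) ^ 2 ≤ (1 / (4 * ℓ ^ A)) ^ 2 := by
      have h7 : (1 / (4 * ℓ ^ A)) ^ 2 = 1 / (32 * ℓ ^ (2 * A)) + 1 / (32 * ℓ ^ (2 * A)) := by
        rw [mul_comm 2 A, pow_mul]
        field_simp
        norm_num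
      rw [h7]
      refine h.trans ?_
      rw [mul_add]
      exact add_le_add h1 h2
    have h8 := abs_le_of_sq_le_sq h6 (by positivity)
    have h9 := (le_abs_self _).trans h8
    rw [div_le_div_iff₀ hM0 (by positivity)] at h9
    rw [le_div_iff₀ (by positivity)]
    linarith
  · have h := hbig M L φ' u Z (by omega) hu hL huL hcase hZup
    refine h.trans ?_
    have h1 : (M : ℝ) ^ (1 - η) * (M : ℝ) ^ η = M := by
      rw [← Real.rpow_add hM0]
      norm_num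
    have h2 : 4 * C * ℓ ^ A ≤ (M : ℝ) ^ η := by
      refine he.trans ?_
      have h3 : (N : ℝ) ^ (η / 2) = r ^ η := by
        rw [hr, ← Real.rpow_mul hN0.le]
        congr 1; ring
      rw [h3]
      exact Real.rpow_le_rpow hr0.le hMr hη0.le
    rw [le_div_iff₀ (by positivity)]
    have h4 : 0 < (M : ℝ) ^ (1 - η) := by positivity
    calc C * (M : ℝ) ^ (1 - η) * (4 * ℓ ^ A) = (M : ℝ) ^ (1 - η) * (4 * C * ℓ ^ A) := by ring
      _ ≤ (M : ℝ) ^ (1 - η) * (M : ℝ) ^ η := mul_le_mul_of_nonneg_left h2 h4.le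
      _ = M := h1

theorem er_eq (θ t : ℝ) (m j : ℕ) :
    er θ ((m + j : ℕ) : ℝ) * er t (Real.log ((m + j : ℕ) : ℝ)) =
      er θ m * e (θ / (2 * Real.pi) * j + t / (2 * Real.pi) * Real.log ((m : ℝ) + j)) := by
  have hpi : (Real.pi : ℂ) ≠ 0 := by exact_mod_cast Real.pi_ne_zero
  unfold er e
  rw [← Complex.exp_add, ← Complex.exp_add]
  congr 1
  push_cast
  field_simp
  ring

theorem norm_er (t x : ℝ) : ‖er t x‖ = 1 := by
  unfold er
  exact Complex.norm_exp_ofReal_mul_I _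

/-- **TWS.** -/
theorem tws (K A : ℕ) : ∃ B : ℕ, ∀ᶠ N : ℕ in atTop, ∀ θ t : ℝ, Real.log N ^ B ≤ |t| →
    |t| ≤ (N : ℝ) ^ K → ‖∑ n ∈ Icc 1 N, er θ n * er t (Real.log n)‖ ≤ N / Real.log N ^ A := by
  obtain ⟨B, hB⟩ := block K A
  refine ⟨B, ?_⟩
  filter_upwards [hB] with N hN θ t ht1 ht2
  obtain ⟨h16, hℓ2, hblock⟩ := hN
  have hbl := hblock (θ / (2 * Real.pi)) t ht1 ht2
  obtain ⟨ℓ, hℓ⟩ : ∃ ℓ, ℓ = Real.log N := ⟨_, rfl⟩
  rw [← hℓ] at h16 hℓ2 hbl ⊢
  have hℓ0 : 0 < ℓ := by linarith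
  obtain ⟨R, hR⟩ : ∃ R, R = (N : ℝ) / ℓ ^ (A + 1) := ⟨_, rfl⟩
  have hR2 : (N : ℝ) / (2 * ℓ ^ (A + 1)) = R / 2 := by
    rw [hR]
    field_simp
  rw [hR2] at h16 hbl
  have hℓA : 0 < ℓ ^ A := by positivity
  set f : ℕ → ℂ := fun n => er θ n * er t (Real.log n) with hf
  have hfn : ∀ n, ‖f n‖ = 1 := by
    intro n
    rw [hf]
    show ‖er θ n * er t (Real.log n)‖ = 1
    rw [norm_mul, norm_er, norm_er, one_mul]
  have key : ∀ m : ℕ, m ≤ N → ‖∑ n ∈ Ico 1 (m + 1), f n‖ ≤ R + m / (2 * ℓ ^ A) := by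
    intro m
    induction m using Nat.strong_induction_on with
    | _ m ih =>
      intro hm
      have htriv : ‖∑ n ∈ Ico 1 (m + 1), f n‖ ≤ m := by
        refine (norm_sum_le _ _).trans ?_
        rw [sum_congr rfl fun n _ => hfn n, sum_const, Nat.card_Ico, nsmul_eq_mul, mul_one]
        simp
      rcases le_or_gt (m : ℝ) R with h | h
      · have : 0 ≤ (m : ℝ) / (2 * ℓ ^ A) := by positivity
        linarith
      · have hm32 : (32 : ℝ) < m := by linarith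
        have hm32' : 32 < m := by exact_mod_cast hm32
        obtain ⟨M, hM⟩ : ∃ M, M = (m + 1) / 2 := ⟨_, rfl⟩
        obtain ⟨L, hL⟩ : ∃ L, L = m - M := ⟨_, rfl⟩
        have a1 : M < m := by omega
        have a2 : m ≤ 2 * M := by omega
        have a3 : L ≤ M := by omega
        have a4 : 2 * M ≤ m + 1 := by omega
        have hMm : (m : ℝ) ≤ 2 * M := by exact_mod_cast a2
        have b1 := hbl M L ((M + 1 : ℕ) : ℝ) (by linarith) (by omega) (by push_cast; linarith) a3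
          (by
            have : ((M + 1 + L : ℕ) : ℝ) ≤ ((3 * M : ℕ) : ℝ) := by
              have : M + 1 + L ≤ 3 * M := by omega
              exact_mod_cast this
            push_cast at this ⊢
            linarith)
        have b2 := ih M a1 (by omega)
        have hsplit : ∑ n ∈ Ico 1 (m + 1), f n =
            ∑ n ∈ Ico 1 (M + 1), f n + ∑ n ∈ Ico (M + 1) (m + 1), f n :=
          (sum_Ico_consecutive f (by omega) (by omega)).symm
        have hblk : ∑ n ∈ Ico (M + 1) (m + 1), f n =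
            er θ ((M + 1 : ℕ) : ℝ) * TW (θ / (2 * Real.pi)) (t / (2 * Real.pi)) ((M + 1 : ℕ) : ℝ) L := by
          rw [sum_Ico_eq_sum_range, show m + 1 - (M + 1) = L by omega]
          unfold TW
          rw [mul_sum]
          refine sum_congr rfl fun j _ => ?_
          exact er_eq θ t (M + 1) j
        rw [hsplit, hblk]
        refine (norm_add_le _ _).trans ?_
        rw [norm_mul, norm_er, one_mul]
        have b3 : (M : ℝ) / (2 * ℓ ^ A) + M / (4 * ℓ ^ A) ≤ m / (2 * ℓ ^ A) := by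
          have b4 : (M : ℝ) / (2 * ℓ ^ A) + M / (4 * ℓ ^ A) = (3 * M / 2) / (2 * ℓ ^ A) := by
            field_simp
            ring
          rw [b4]
          apply div_le_div_of_nonneg_right _ (by positivity)
          have b5 : (2 : ℝ) * M ≤ m + 1 := by exact_mod_cast a4
          linarith
        linarith
  have h1 := key N le_rfl
  have h2 : Icc 1 N = Ico 1 (N + 1) := by
    ext n
    simp only [mem_Icc, mem_Ico]
    omega
  rw [h2]
  refine h1.trans ?_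
  have h3 : R ≤ (N : ℝ) / (2 * ℓ ^ A) := by
    rw [hR, pow_succ]
    apply div_le_div_of_nonneg_left (Nat.cast_nonneg N) (by positivity)
    nlinarith
  have h4 : (N : ℝ) / ℓ ^ A = N / (2 * ℓ ^ A) + N / (2 * ℓ ^ A) := by
    field_simp
    norm_num
  rw [h4]
  linarith

end Pool.Agent.D0H65.UB
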