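import Pool.Agent.D0H91.UB.Stm
import Pool.Agent.D0H65.UB.TwsB

/-! Project UB (helper91), module TWS (helper65). -/

set_option autoImplicit false

namespace Pool.Agent.D0H65.UB

/-- **TWS.** -/
theorem t_TWS : Pool.Agent.D0H91.UB.S_TWS := fun K A => tws K A

end Pool.Agent.D0H65.UB
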