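import Pool.Agent.H442R2.EHI.VdC
import Pool.Agent.H376R2.MR.Defs

/-!
# Project UB (helper91), module TWS (helper65)

Sums of `e (φ n + Z log (u + n))`, uniformly in the linear twist `φ`.
-/

set_option autoImplicit false

namespace Pool.Agent.D0H65.UB

open Finset
open Pool.Agent.H469R2.NK (e norm_e e_add conj_e vdcH norm_sum_neg Av Av_le Cq Cq_pos iterate harm_le
  alg_aux)
open Pool.Agent.H442R2.EHI (EL SL SL_sq SL_le)

/-- the twisted sum -/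
noncomputable def TW (φ Z u : ℝ) (L : ℕ) : ℂ :=
  ∑ n ∈ range L, e (φ * n + Z * Real.log (u + n))

lemma TW_sq (φ Z u : ℝ) (L H : ℕ) :
    (H : ℝ) * ‖TW φ Z u L‖ ^ 2 ≤ (L + H) * (L + 2 * ∑ l ∈ Ico 1 H, ‖SL Z u L [l]‖) := by
  have h := vdcH (fun n => e (φ * (n : ℝ) + Z * Real.log (u + (n : ℝ)))) (fun n => (norm_e _).le) L H
  have h1 : ∀ l, ‖∑ n ∈ range (L - l), e (φ * ((n + l : ℕ) : ℝ) + Z * Real.log (u + ((n + l : ℕ) : ℝ))) *
      (starRingEnd ℂ) (e (φ * (n : ℝ) + Z * Real.log (u + (n : ℝ))))‖ = ‖SL Z u L [l]‖ := by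
    intro l
    unfold SL
    rw [List.sum_cons, List.sum_nil, add_zero]
    have h2 : ∀ n ∈ range (L - l), e (φ * ((n + l : ℕ) : ℝ) + Z * Real.log (u + ((n + l : ℕ) : ℝ))) *
        (starRingEnd ℂ) (e (φ * (n : ℝ) + Z * Real.log (u + (n : ℝ)))) =
        e (φ * l) * e (Z * EL [l] (u + n)) := by
      intro n _
      rw [conj_e, ← e_add, ← e_add]
      congr 1
      simp only [EL]
      push_cast
      rw [show u + n + l = u + (n + l) by ring]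
      ring
    rw [sum_congr rfl h2, ← mul_sum, norm_mul, norm_e, one_mul]
  simp only [h1] at h
  exact h

/-- the lists of sums -/
noncomputable def TT (φ Z u : ℝ) (L : ℕ) : List ℕ → ℝ
  | [] => ‖TW φ Z u L‖
  | l :: ls => ‖SL Z u L (l :: ls)‖

lemma TT_nonneg (φ Z u : ℝ) (L : ℕ) (ls : List ℕ) : 0 ≤ TT φ Z u L ls := by
  cases ls with
  | nil => exact norm_nonneg _
  | cons l ls => exact norm_nonneg _

lemma TT_sq (φ Z u : ℝ) (L H : ℕ) (ls : List ℕ) :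
    (H : ℝ) * TT φ Z u L ls ^ 2 ≤ (L + H) * (L + 2 * ∑ l ∈ Ico 1 H, TT φ Z u L (l :: ls)) := by
  cases ls with
  | nil => exact TW_sq φ Z u L H
  | cons l ls => exact SL_sq Z u L H (l :: ls)

lemma exp_boundT (q : ℕ) (hq : 1 ≤ q) (φ Z : ℝ) (hZ : 0 < Z) (N : ℕ) (u : ℝ) (L H : ℕ) (hN : 1 ≤ N)
    (hu : (N : ℝ) ≤ u) (hL : L ≤ N) (huL : u + L ≤ 3 * N) (hH : 1 ≤ H) (hHN : H ≤ N)
    (hup : 2 * (Z * (q.factorial / (N : ℝ) ^ (q + 1) * (H : ℝ) ^ q)) ≤ 1) :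
    (‖TW φ Z u L‖ / N) ^ (2 ^ q) ≤ Cq q * (1 / H +
      (2 * (3 * N) ^ (q + 1) / (Z * q.factorial) / N) * ((∑ l ∈ Ico 1 H, (1 : ℝ) / l) / H) ^ q) := by
  have hN' : (1 : ℝ) ≤ N := by exact_mod_cast hN
  have hH' : (1 : ℝ) ≤ H := by exact_mod_cast hH
  have hL' : (L : ℝ) ≤ N := by exact_mod_cast hL
  have hHN' : (H : ℝ) ≤ N := by exact_mod_cast hHN
  have hstep : ∀ ls : List ℕ, (TT φ Z u L ls / N) ^ 2 ≤
      2 / H + 4 * ((∑ l ∈ Ico 1 H, TT φ Z u L (l :: ls) / N) / H) := by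
    intro ls
    have h := TT_sq φ Z u L H ls
    set Sg := ∑ l ∈ Ico 1 H, TT φ Z u L (l :: ls) with hSg
    have hSg0 : 0 ≤ Sg := sum_nonneg fun _ _ => TT_nonneg _ _ _ _ _
    have h2 : (H : ℝ) * TT φ Z u L ls ^ 2 ≤ (2 * N) * (N + 2 * Sg) := by
      refine h.trans ?_
      have : (L : ℝ) + H ≤ 2 * N := by linarith
      gcongr
    rw [← sum_div, ← hSg]
    have e1 : 2 / (H : ℝ) + 4 * (Sg / N / H) = ((2 * N) * (N + 2 * Sg)) / (H * N ^ 2) := by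
      field_simp
      ring
    rw [e1, div_pow, div_le_div_iff₀ (by positivity) (by positivity)]
    calc TT φ Z u L ls ^ 2 * (H * N ^ 2) = ((H : ℝ) * TT φ Z u L ls ^ 2) * N ^ 2 := by ring
      _ ≤ _ := by gcongr
  have hit := iterate hH (fun ls => TT φ Z u L ls / N)
    (fun ls => div_nonneg (TT_nonneg _ _ _ _ _) (by positivity)) hstep q []
  refine hit.trans ?_
  have hC := Cq_pos q
  gcongr
  have := Av_le (H := H) (T := fun ls => TT φ Z u L ls / N)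
    (κ := 2 * (3 * N) ^ (q + 1) / (Z * q.factorial) / N) q (by
      intro ls hlen hent
      have hTS : TT φ Z u L ls = ‖SL Z u L ls‖ := by
        cases ls with
        | nil => simp only [List.length_nil] at hlen; omega
        | cons l ls => rfl
      have hpos : 0 < ls.prod := List.prod_pos fun l hl => (hent l hl).1
      have hle : ls.prod ≤ H ^ q := by
        have := List.prod_le_pow_card ls H (fun l hl => (hent l hl).2.le)
        rwa [hlen] at this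
      have hle' : ((ls.prod : ℕ) : ℝ) ≤ (H : ℝ) ^ q := by exact_mod_cast hle
      have h1 := SL_le Z hZ N u L hN hu huL ls hpos (by
        rw [hlen]
        refine le_trans ?_ hup
        gcongr)
      rw [hlen] at h1
      have hP : (0 : ℝ) < (ls.prod : ℕ) := by exact_mod_cast hpos
      rw [hTS]
      calc ‖SL Z u L ls‖ / N ≤ (2 * (3 * N) ^ (q + 1) / (Z * q.factorial * (ls.prod : ℕ))) / N := by gcongr
        _ = _ := by field_simp) q [] (by simp) (by simp)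
  simpa using this

lemma TW_le (φ Z u : ℝ) (L : ℕ) : ‖TW φ Z u L‖ ≤ L := by
  unfold TW
  refine (norm_sum_le _ _).trans ?_
  simp only [norm_e, sum_const, card_range, nsmul_eq_mul, mul_one]
  exact le_rfl

/-- large frequencies: a power saving -/
theorem big_freq (Q : ℕ) (hQ : 1 ≤ Q) :
    ∃ η : ℝ, 0 < η ∧ η ≤ 1 ∧ ∃ C : ℝ, 0 < C ∧ ∀ (N L : ℕ) (φ u Z : ℝ), 1 ≤ N → (N : ℝ) ≤ u →
      L ≤ N → u + L ≤ 3 * N → (N : ℝ) ^ (3 / 4 : ℝ) < Z → Z ≤ (N : ℝ) ^ Q →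
      ‖TW φ Z u L‖ ≤ C * (N : ℝ) ^ (1 - η) := by
  set η : ℝ := 1 / (4 * Q * 2 ^ Q) with hη
  have hQ' : (1 : ℝ) ≤ Q := by exact_mod_cast hQ
  have h2Q : (1 : ℝ) ≤ 2 ^ Q := one_le_pow₀ (by norm_num)
  have hη0 : 0 < η := by rw [hη]; positivity
  have hη1 : η ≤ 1 / 4 := by
    rw [hη, div_le_div_iff₀ (by positivity) (by norm_num)]
    nlinarith
  set N0 : ℝ := max 16 ((2 * Q.factorial) ^ 2) with hN0
  set K : ℝ := Cq Q * (2 + (2 * 3 ^ (Q + 1) / Q.factorial) * 2 ^ Q * (1 + 4 * Q) ^ Q) with hK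
  have hCq := Cq_pos Q
  have hK0 : 0 < K := by rw [hK]; positivity
  set C : ℝ := max (max 6 N0) (K ^ ((1 : ℝ) / 2 ^ Q)) with hC
  refine ⟨η, hη0, by linarith, C, by rw [hC]; positivity, ?_⟩
  intro N L φ u Z hN ha hL haL hcase hZ2
  have hN' : (1 : ℝ) ≤ N := by exact_mod_cast hN
  have hNpos : (0 : ℝ) < N := by linarith
  have hC6 : 6 ≤ C := (le_max_left _ _).trans (le_max_left _ _)
  have hCN0 : N0 ≤ C := (le_max_right _ _).trans (le_max_left _ _)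
  have hCK : K ^ ((1 : ℝ) / 2 ^ Q) ≤ C := le_max_right _ _
  have hZ : 0 < Z := lt_trans (by positivity) hcase
  have htriv : ‖TW φ Z u L‖ ≤ N := (TW_le φ Z u L).trans (by exact_mod_cast hL)
  rcases lt_or_ge (N : ℝ) N0 with hsmall | hbig
  · refine htriv.trans ?_
    calc (N : ℝ) ≤ N0 * 1 := by linarith
      _ ≤ C * (N : ℝ) ^ (1 - η) := by
        gcongr
        exact Real.one_le_rpow hN' (by linarith)
  have h16 : (16 : ℝ) ≤ N := (le_max_left _ _).trans hbig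
  have hfac : ((2 * Q.factorial : ℕ) : ℝ) ^ 2 ≤ N := by
    push_cast
    exact (le_max_right _ _).trans hbig
  set h : ℝ := ((N : ℝ) ^ (Q + 1 / 2 : ℝ) / Z) ^ ((1 : ℝ) / Q) with hh
  have hhQ : h ^ Q = (N : ℝ) ^ (Q + 1 / 2 : ℝ) / Z := by
    rw [hh, ← Real.rpow_natCast, ← Real.rpow_mul (by positivity), one_div_mul_cancel (by positivity), Real.rpow_one]
  have hh0 : 0 ≤ h := by rw [hh]; positivity
  have hlow : (N : ℝ) ^ (1 / 2 : ℝ) ≤ h ^ Q := by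
    rw [hhQ, le_div_iff₀ hZ]
    calc (N : ℝ) ^ (1 / 2 : ℝ) * Z ≤ (N : ℝ) ^ (1 / 2 : ℝ) * (N : ℝ) ^ Q := by gcongr
      _ = _ := by
        rw [← Real.rpow_natCast, ← Real.rpow_add hNpos]
        congr 1; ring
  have hupp : h ^ Q ≤ (N : ℝ) ^ Q := by
    rw [hhQ, div_le_iff₀ hZ]
    calc (N : ℝ) ^ (Q + 1 / 2 : ℝ) ≤ (N : ℝ) ^ (Q + 3 / 4 : ℝ) := by
          apply Real.rpow_le_rpow_of_exponent_le hN'; linarith
      _ = (N : ℝ) ^ Q * (N : ℝ) ^ (3 / 4 : ℝ) := by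
          rw [Real.rpow_add hNpos, Real.rpow_natCast]
      _ ≤ _ := by gcongr
  have hhN : h ≤ N := le_of_pow_le_pow_left₀ (by omega) (by positivity) hupp
  have hN12 : (1 : ℝ) ≤ (N : ℝ) ^ (1 / 2 : ℝ) := Real.one_le_rpow hN' (by norm_num)
  have hh1 : 1 ≤ h := by
    by_contra hlt
    rw [not_le] at hlt
    have : h ^ Q ≤ 1 := pow_le_one₀ hh0 hlt.le
    have h4 : (4 : ℝ) ≤ (N : ℝ) ^ (1 / 2 : ℝ) := by
      calc (4 : ℝ) = (16 : ℝ) ^ (1 / 2 : ℝ) := by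
            rw [show (16 : ℝ) = 4 ^ (2 : ℝ) by norm_num, ← Real.rpow_mul (by norm_num)]; norm_num
        _ ≤ _ := by gcongr
    linarith
  set H : ℕ := ⌊h⌋₊ with hH
  have hH1 : 1 ≤ H := Nat.one_le_floor_iff _ |>.mpr hh1
  have hHle : (H : ℝ) ≤ h := Nat.floor_le hh0
  have hHN : H ≤ N := by exact_mod_cast hHle.trans hhN
  have hHge : h / 2 ≤ H := by
    have h1 : h < H + 1 := Nat.lt_floor_add_one h
    have h2 : (1 : ℝ) ≤ H := by exact_mod_cast hH1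
    linarith
  have hH1' : (1 : ℝ) ≤ H := by exact_mod_cast hH1
  have hsq : ((2 * Q.factorial : ℕ) : ℝ) ≤ (N : ℝ) ^ (1 / 2 : ℝ) := by
    rw [← Real.sqrt_eq_rpow]
    exact Real.le_sqrt_of_sq_le hfac
  have hZh : Z * h ^ Q = (N : ℝ) ^ (Q + 1 / 2 : ℝ) := by rw [hhQ]; field_simp
  have hcond : 2 * (Z * (Q.factorial / (N : ℝ) ^ (Q + 1) * (H : ℝ) ^ Q)) ≤ 1 := by
    have e1 : (N : ℝ) ^ (Q + 1) = (N : ℝ) ^ (Q + 1 / 2 : ℝ) * (N : ℝ) ^ (1 / 2 : ℝ) := by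
      rw [← Real.rpow_add hNpos, ← Real.rpow_natCast]; congr 1; push_cast; ring
    have e2 : 2 * (Z * (Q.factorial / (N : ℝ) ^ (Q + 1) * (H : ℝ) ^ Q)) =
        (2 * Q.factorial : ℕ) * (Z * (H : ℝ) ^ Q) / (N : ℝ) ^ (Q + 1) := by
      push_cast; ring
    rw [e2, div_le_one (by positivity), e1, ← hZh]
    calc ((2 * Q.factorial : ℕ) : ℝ) * (Z * (H : ℝ) ^ Q) ≤ (N : ℝ) ^ (1 / 2 : ℝ) * (Z * h ^ Q) := by gcongr
      _ = _ := by ring
  have hb := exp_boundT Q hQ φ Z hZ N u L H hN ha hL haL hH1 hHN hcond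
  -- first term
  have hhlow : (N : ℝ) ^ ((1 : ℝ) / (2 * Q)) ≤ h := by
    have : ((N : ℝ) ^ ((1 : ℝ) / (2 * Q))) ^ Q ≤ h ^ Q := by
      rw [← Real.rpow_natCast, ← Real.rpow_mul (by positivity)]
      refine le_trans (le_of_eq ?_) hlow
      congr 1; field_simp
    exact le_of_pow_le_pow_left₀ (by omega) hh0 this
  have hQpos : (0 : ℝ) < Q := by linarith
  have hterm1 : 1 / (H : ℝ) ≤ 2 * (N : ℝ) ^ (-(1 : ℝ) / (4 * Q)) := by
    have h1 : (0 : ℝ) < (N : ℝ) ^ ((1 : ℝ) / (4 * Q)) := by positivity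
    have h2 : (N : ℝ) ^ ((1 : ℝ) / (4 * Q)) ≤ (N : ℝ) ^ ((1 : ℝ) / (2 * Q)) := by
      apply Real.rpow_le_rpow_of_exponent_le hN'
      gcongr; norm_num
    rw [neg_div, Real.rpow_neg (by positivity), ← div_eq_mul_inv, div_le_div_iff₀ (by positivity) h1]
    linarith
  have hlog : 1 + Real.log H ≤ (1 + 4 * Q) * (N : ℝ) ^ ((1 : ℝ) / (4 * Q)) := by
    have h1 : Real.log H ≤ Real.log N := Real.log_le_log (by positivity) (by exact_mod_cast hHN)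
    have h2 := Real.log_le_rpow_div (x := N) (ε := (1 : ℝ) / (4 * Q)) (by positivity) (by positivity)
    have h3 : (N : ℝ) ^ ((1 : ℝ) / (4 * Q)) / ((1 : ℝ) / (4 * Q)) = 4 * Q * (N : ℝ) ^ ((1 : ℝ) / (4 * Q)) := by
      field_simp
    have h4 : (1 : ℝ) ≤ (N : ℝ) ^ ((1 : ℝ) / (4 * Q)) := Real.one_le_rpow hN' (by positivity)
    rw [h3] at h2
    nlinarith
  have hterm2 : (2 * (3 * N) ^ (Q + 1) / (Z * Q.factorial) / N) * ((∑ l ∈ Ico 1 H, (1 : ℝ) / l) / H) ^ Q ≤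
      (2 * 3 ^ (Q + 1) / Q.factorial) * 2 ^ Q * (1 + 4 * Q) ^ Q * (N : ℝ) ^ (-(1 : ℝ) / (4 * Q)) := by
    have hs0 : 0 ≤ ∑ l ∈ Ico 1 H, (1 : ℝ) / l := sum_nonneg fun _ _ => by positivity
    have h1 : ((∑ l ∈ Ico 1 H, (1 : ℝ) / l) / H) ^ Q ≤
        (((1 + 4 * Q) * (N : ℝ) ^ ((1 : ℝ) / (4 * Q))) / (h / 2)) ^ Q := by
      gcongr
      exact (harm_le H).trans hlog
    have h2 : (((1 + 4 * Q) * (N : ℝ) ^ ((1 : ℝ) / (4 * Q))) / (h / 2)) ^ Q =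
        (1 + 4 * Q) ^ Q * (N : ℝ) ^ ((1 : ℝ) / 4) * 2 ^ Q / h ^ Q := by
      rw [div_pow, mul_pow, div_pow, div_div_eq_mul_div]
      congr 3
      rw [← Real.rpow_natCast, ← Real.rpow_mul (by positivity)]
      congr 1; field_simp
    have h3 : (N : ℝ) ^ ((1 : ℝ) / 4) * (N : ℝ) ^ Q * (N : ℝ) ^ ((1 : ℝ) / (4 * Q)) ≤ Z * h ^ Q := by
      rw [hZh, ← Real.rpow_natCast, ← Real.rpow_add hNpos, ← Real.rpow_add hNpos]
      apply Real.rpow_le_rpow_of_exponent_le hN'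
      have : (1 : ℝ) / (4 * Q) ≤ 1 / 4 := by
        rw [div_le_div_iff₀ (by positivity) (by norm_num)]; linarith
      linarith
    have hNQ : (0 : ℝ) < (N : ℝ) ^ ((1 : ℝ) / (4 * Q)) := by positivity
    calc _ ≤ (2 * (3 * N) ^ (Q + 1) / (Z * Q.factorial) / N) *
          ((1 + 4 * Q) ^ Q * (N : ℝ) ^ ((1 : ℝ) / 4) * 2 ^ Q / h ^ Q) := by rw [← h2]; gcongr
      _ = (2 * 3 ^ (Q + 1) / Q.factorial) * 2 ^ Q * (1 + 4 * Q) ^ Q *
          (((N : ℝ) ^ ((1 : ℝ) / 4) * (N : ℝ) ^ Q) / (Z * h ^ Q)) := by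
          rw [mul_pow, pow_succ (N : ℝ) Q]
          exact alg_aux _ _ _ _ _ _ _ _ _ hZ.ne' hNpos.ne' (by positivity) (by positivity)
      _ ≤ _ := by
          gcongr
          rw [neg_div, Real.rpow_neg (by positivity), ← one_div, div_le_div_iff₀ (by positivity) hNQ]
          linarith
  have hfin : (‖TW φ Z u L‖ / N) ^ (2 ^ Q) ≤ K * (N : ℝ) ^ (-(1 : ℝ) / (4 * Q)) := by
    refine hb.trans ?_
    calc _ ≤ Cq Q * (2 * (N : ℝ) ^ (-(1 : ℝ) / (4 * Q)) +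
          (2 * 3 ^ (Q + 1) / Q.factorial) * 2 ^ Q * (1 + 4 * Q) ^ Q * (N : ℝ) ^ (-(1 : ℝ) / (4 * Q))) := by
          gcongr
      _ = _ := by rw [hK]; ring
  have hroot : ‖TW φ Z u L‖ / N ≤ K ^ ((1 : ℝ) / 2 ^ Q) * (N : ℝ) ^ (-η) := by
    have h1 : (‖TW φ Z u L‖ / N) = ((‖TW φ Z u L‖ / N) ^ (2 ^ Q)) ^ ((1 : ℝ) / 2 ^ Q) := by
      rw [← Real.rpow_natCast, ← Real.rpow_mul (by positivity)]
      push_cast
      rw [mul_one_div_cancel (by positivity), Real.rpow_one]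
    rw [h1]
    calc _ ≤ (K * (N : ℝ) ^ (-(1 : ℝ) / (4 * Q))) ^ ((1 : ℝ) / 2 ^ Q) := by gcongr
      _ = K ^ ((1 : ℝ) / 2 ^ Q) * (N : ℝ) ^ (-(1 : ℝ) / (4 * Q) * (1 / 2 ^ Q)) := by
          rw [Real.mul_rpow hK0.le (by positivity), ← Real.rpow_mul (by positivity)]
      _ ≤ _ := by
          gcongr
          have : -(1 : ℝ) / (4 * Q) * (1 / 2 ^ Q) = -(1 / (4 * Q * 2 ^ Q)) := by
            field_simp
          rw [this, hη]
  rw [div_le_iff₀ hNpos] at hroot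
  calc ‖TW φ Z u L‖ ≤ K ^ ((1 : ℝ) / 2 ^ Q) * (N : ℝ) ^ (-η) * N := hroot
    _ ≤ C * (N : ℝ) ^ (-η) * N := by gcongr
    _ = _ := by
      rw [mul_assoc, sub_eq_neg_add, Real.rpow_add hNpos, Real.rpow_one]


/-- small frequencies -/
theorem small_freq (N L : ℕ) (φ u Z : ℝ) (hN : 16 ≤ N) (hu : (N : ℝ) ≤ u) (hL : L ≤ N)
    (huL : u + L ≤ 3 * N) (hZ0 : 0 < Z) (hZ : Z ≤ (N : ℝ) ^ (3 / 4 : ℝ)) :
    (‖TW φ Z u L‖ / N) ^ 2 ≤ Cq 1 * (1 / N + 18 * (1 + Real.log N) / Z) := by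
  have hN' : (16 : ℝ) ≤ N := by exact_mod_cast hN
  have hNpos : (0 : ℝ) < N := by linarith
  have h2Z : 2 * Z ≤ N := by
    have e1 : (2 : ℝ) ≤ (N : ℝ) ^ (1 / 4 : ℝ) := by
      calc (2 : ℝ) = (16 : ℝ) ^ (1 / 4 : ℝ) := by
            rw [show (16 : ℝ) = 2 ^ (4 : ℝ) by norm_num, ← Real.rpow_mul (by norm_num)]; norm_num
        _ ≤ _ := by gcongr
    have e2 : (N : ℝ) ^ (3 / 4 : ℝ) * (N : ℝ) ^ (1 / 4 : ℝ) = (N : ℝ) := by
      rw [← Real.rpow_add hNpos]; norm_num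
    calc 2 * Z ≤ (N : ℝ) ^ (1 / 4 : ℝ) * (N : ℝ) ^ (3 / 4 : ℝ) := by gcongr
      _ = N := by rw [mul_comm]; exact e2
  have h := exp_boundT 1 le_rfl φ Z hZ0 N u L N (by omega) hu hL huL (by omega) le_rfl (by
    simp only [Nat.factorial_one, Nat.cast_one, pow_one]
    have e3 : 2 * (Z * (1 / (N : ℝ) ^ (1 + 1) * N)) = 2 * Z / N := by
      field_simp
    rw [e3, div_le_one hNpos]
    exact h2Z)
  rw [pow_one] at h
  refine h.trans ?_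
  have hC := Cq_pos 1
  gcongr
  simp only [Nat.factorial_one, Nat.cast_one, mul_one, pow_one]
  have e4 : 2 * (3 * (N : ℝ)) ^ (1 + 1) / Z / N * ((∑ l ∈ Ico 1 N, (1 : ℝ) / l) / N) =
      18 * (∑ l ∈ Ico 1 N, (1 : ℝ) / l) / Z := by
    field_simp
    ring
  rw [e4]
  have := harm_le N
  gcongr

end Pool.Agent.D0H65.UB
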